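import Pool.Agent.R721.PN.Tab

/-!
The limits of the densities of zeros of type I and of type II in the character table of `S_n` exist
and are equal (to `0`). Hence the three limits of the question exist and are equal if and only if the
density `z(S_n)` of all zeros tends to `0`.

The proof is in `Pool.Agent.R721.PN`: local regularity of the partition numbers by the saddle point
method, and the inequality `binom(t, 2) c_t(n) ≤ p(n + 2 t)` for the number of `t`-cores.
-/

set_option autoImplicit false

namespace Pool.Agent.Results.MP_024b77_al.ClassicalLimits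

open Filter Topology
open Pool.Agent.H581R3.Core Pool.Agent.R721.PN

/-- The limits of `z_I(S_n)` and `z_II(S_n)` exist and are both `0`; the assertion of the question
holds if and only if `z(S_n)` tends to `0`. -/
theorem result :
    Tendsto zI atTop (𝓝 0) ∧ Tendsto zII atTop (𝓝 0) ∧
    ((∃ a : ℝ, Tendsto zI atTop (𝓝 a) ∧ Tendsto zII atTop (𝓝 a) ∧ Tendsto zTable atTop (𝓝 a)) ↔
      Tendsto zTable atTop (𝓝 0)) := by
  refine ⟨tendsto_zI, tendsto_zII, ?_, fun h => ⟨0, tendsto_zI, tendsto_zII, h⟩⟩
  rintro ⟨a, h1, -, h3⟩
  rwa [tendsto_nhds_unique h1 tendsto_zI] at h3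

end Pool.Agent.Results.MP_024b77_al.ClassicalLimits
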